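import Pool.Agent.Lib.MP_1a91b9_nuX.TM.Main

/-!
# Tamagawa numbers of curves with integral `j`-invariant, general case

`tam_gen`: let `W` be a curve over a number field with an integral `j`-invariant, `ℓ ≥ 5` a prime number
and `v` a place prime to `ℓ` or of good reduction. Then the Tamagawa number of `W` at `v` is prime to `ℓ`.
-/

set_option autoImplicit false

namespace Pool.Agent.Lib.MP_1a91b9_nuI

variable [Pool.Agent.Lib.MP_1a91b9_nuT.CD]

open NumberField IsDedekindDomain WeierstrassCurve WithZero Pool.Agent.Lib.MP_1a91b9_nuX.GM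
open Pool.Agent.Lib.MP_1a91b9_nuX Pool.Agent.Lib.MP_1a91b9_nuX.TM
open Pool.Agent.Lib.MP_1a91b9_nuT.CT (ns)
open Pool.Agent.Lib.MP_1a91b9_nuT.S9 (tam minModel minChange normFactor)
open scoped Classical

variable {N : Type*} [Field N] [NumberField N]

theorem tam_gen {W : WeierstrassCurve N} {D : VariableChange N} {A B : N} {j : ℤ}
    (hab : 4 * A ^ 3 + 27 * B ^ 2 ≠ 0) (hj : 6912 * A ^ 3 = j * (4 * A ^ 3 + 27 * B ^ 2))
    (hD : D • W = sw A B) {ℓ : ℕ} (hℓ : ℓ.Prime) (h5 : 5 ≤ ℓ) (v : HeightOneSpectrum (𝓞 N))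
    (hv : Valued.v (ℓ : v.adicCompletion N) = (1 : ℤᵐ⁰) ∨
      ∃ C₀ : VariableChange (v.adicCompletion N),
        GoodW (Valued.v : Valuation (v.adicCompletion N) ℤᵐ⁰)
          (C₀ • (sw A B).baseChange (v.adicCompletion N))) :
    (tam W v).Coprime ℓ := by
  obtain ⟨C, -, hC⟩ := PL.minModel_of hD v
  have hm := Pool.Agent.Lib.MP_1a91b9_nuT.S9.minModel_isMinimal W v
  rw [tam, Pool.Agent.Lib.MP_1a91b9_nuT.CT.nonsing_eq]
  obtain ⟨a, ha⟩ : ∃ a, a = algebraMap N (v.adicCompletion N) A := ⟨_, rfl⟩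
  obtain ⟨b, hb⟩ : ∃ b, b = algebraMap N (v.adicCompletion N) B := ⟨_, rfl⟩
  have e0 : (sw A B).baseChange (v.adicCompletion N) = sw a b := by
    rw [WeierstrassCurve.baseChange, sw_map, ha, hb]
  rw [hC, e0] at hm ⊢
  rw [e0] at hv
  obtain ⟨V, hVd⟩ : ∃ V : Valuation (v.adicCompletion N) ℤᵐ⁰, V = Valued.v := ⟨_, rfl⟩
  have hd : 4 * a ^ 3 + 27 * b ^ 2 ≠ 0 := by
    intro h
    apply hab
    apply (algebraMap N (v.adicCompletion N)).injective
    rw [map_add, map_mul, map_mul, map_pow, map_pow, map_ofNat, map_ofNat, map_zero, ← ha, ← hb]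
    exact h
  by_cases hgood : ∃ C₀ : VariableChange (v.adicCompletion N),
      GoodW (Valued.v : Valuation (v.adicCompletion N) ℤᵐ⁰) (C₀ • sw a b)
  · rw [good_ns v hgood C hm, AddSubgroup.index_top]
    exact Nat.coprime_one_left ℓ
  have hvℓ : V (ℓ : v.adicCompletion N) = 1 := by
    rw [hVd]
    exact hv.resolve_right hgood
  have hint : ∀ m : ℤ, V (m : v.adicCompletion N) ≤ 1 := by
    intro m
    rcases Int.eq_nat_or_neg m with ⟨n, rfl | rfl⟩
    · rw [Int.cast_natCast]; exact v_nat_le n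
    · rw [Int.cast_neg, Int.cast_natCast, Valuation.map_neg]; exact v_nat_le n
  have hcz : CharZero (v.adicCompletion N) :=
    charZero_of_injective_algebraMap (algebraMap N (v.adicCompletion N)).injective
  have h20 : (2 : v.adicCompletion N) ≠ 0 := two_ne_zero
  have h30 : (3 : v.adicCompletion N) ≠ 0 := three_ne_zero
  -- potential good reduction
  obtain ⟨R, hR⟩ := exists_val_ext (F' := AlgebraicClosure (v.adicCompletion N)) V
  have hmapΔ : ((sw a b).map
      (algebraMap (v.adicCompletion N) (AlgebraicClosure (v.adicCompletion N)))).Δ =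
      algebraMap _ _ (sw a b).Δ :=
    WeierstrassCurve.map_Δ _ _
  have hΔ0 : (sw a b).Δ ≠ 0 := by
    rw [sw_Δ, neg_ne_zero]
    refine mul_ne_zero ?_ hd
    have e : (16 : v.adicCompletion N) = 2 ^ 4 := by norm_num
    rw [e]
    exact pow_ne_zero 4 h20
  have hjV : R.valuation (((sw a b).map
      (algebraMap (v.adicCompletion N) (AlgebraicClosure (v.adicCompletion N)))).c₄ ^ 3) ≤
      R.valuation ((sw a b).map
      (algebraMap (v.adicCompletion N) (AlgebraicClosure (v.adicCompletion N)))).Δ := by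
    have e1 : (sw a b).c₄ ^ 3 = (sw a b).Δ * (j : v.adicCompletion N) := by
      rw [sw_c₄, sw_Δ]
      have h1 := congrArg (algebraMap N (v.adicCompletion N)) hj
      rw [map_mul, map_mul, map_add, map_mul, map_mul, map_pow, map_pow, map_ofNat, map_ofNat,
        map_ofNat, map_intCast, ← ha, ← hb] at h1
      linear_combination (-16) * h1
    rw [WeierstrassCurve.map_c₄, ← map_pow, e1, hmapΔ, map_mul, map_mul]
    exact mul_le_of_le_one_right' ((hR _).2 (hint j))
  have a20 : (2 : AlgebraicClosure (v.adicCompletion N)) ≠ 0 := by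
    have h := (map_ne_zero (algebraMap (v.adicCompletion N)
      (AlgebraicClosure (v.adicCompletion N)))).2 h20
    rwa [map_ofNat] at h
  have a30 : (3 : AlgebraicClosure (v.adicCompletion N)) ≠ 0 := by
    have h := (map_ne_zero (algebraMap (v.adicCompletion N)
      (AlgebraicClosure (v.adicCompletion N)))).2 h30
    rwa [map_ofNat] at h
  obtain ⟨C₁, hC₁⟩ := exists_good (v := R.valuation) a20 a30
    (W := (sw a b).map
      (algebraMap (v.adicCompletion N) (AlgebraicClosure (v.adicCompletion N))))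
    (by rw [hmapΔ]; exact (map_ne_zero _).2 hΔ0) hjV
  obtain ⟨e, M₀, hM₀⟩ := big_ns v (sw a b) C
  obtain ⟨p, hp, hvp⟩ := exists_char v
  have hcov := cover v hd
  have hidx : ((ns (C • sw a b)).comap e.toAddMonoidHom).index = (ns (C • sw a b)).index :=
    AddSubgroup.index_comap_of_surjective _ e.surjective
  rw [← hVd] at hcov hvp hM₀ hgood
  have hfi : ((ns (C • sw a b)).comap e.toAddMonoidHom).FiniteIndex := fin_index hcov _ M₀ hM₀
  rw [← hidx]
  refine index_cop (F := AlgebraicClosure (v.adicCompletion N)) (V := R.valuation) ?_ hR hcov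
    (Algebra.IsAlgebraic.isAlgebraic _) hC₁ hgood _ M₀ hM₀ hℓ h5 hp hvp hvℓ
  intro γ
  rw [hVd]
  exact v.valuedAdicCompletion_surjective N γ

end Pool.Agent.Lib.MP_1a91b9_nuI
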