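import Pool.Agent.Lib.MP_1a91b9_nuI.Ta.DescW

/-!
# Good reduction above `ℓ` in towers with ramification above `ℓ`
-/

set_option autoImplicit false

namespace Pool.Agent.Lib.MP_1a91b9_nuI

open NumberField IsDedekindDomain WeierstrassCurve WithZero Pool.Agent.Lib.MP_1a91b9_nuX.GM
open Pool.Agent.Lib.MP_1a91b9_nuX Pool.Agent.Lib.MP_1a91b9_nuX.TM

/-- there is a place above a place -/
theorem exists_above_w {N L : Type*} [Field N] [NumberField N] [Field L] [NumberField L]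
    [Algebra N L] (v : HeightOneSpectrum (𝓞 N)) :
    ∃ w : HeightOneSpectrum (𝓞 L), w.asIdeal.LiesOver v.asIdeal := by
  obtain ⟨P, hPm, hP⟩ := Ideal.exists_maximal_ideal_liesOver_of_isIntegral (S := 𝓞 L) v.asIdeal
  refine ⟨⟨P, hPm.isPrime, ?_⟩, hP⟩
  intro hb
  apply v.ne_bot
  rw [hP.over, hb]
  exact Ideal.comap_bot_of_injective _ (FaithfulSMul.algebraMap_injective (𝓞 N) (𝓞 L))

/-- the ramification index divides the degree of a Galois extension -/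
theorem ramIdx_dvd {F₀ L M : Type*} [Field F₀] [NumberField F₀] [Field L] [NumberField L]
    [Field M] [NumberField M] [Algebra F₀ L] [Algebra L M] [Algebra F₀ M] [IsScalarTower F₀ L M]
    [IsGalois F₀ M] (v : HeightOneSpectrum (𝓞 F₀)) (w : HeightOneSpectrum (𝓞 L))
    [hwv : w.asIdeal.LiesOver v.asIdeal] :
    v.asIdeal.ramificationIdx' w.asIdeal ∣ Module.finrank F₀ M := by
  obtain ⟨W, hW⟩ := exists_above_w (L := M) w
  have h1 := Ideal.ramificationIdx'_algebra_tower' v.asIdeal w.asIdeal W.asIdeal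
  have hWv : W.asIdeal.LiesOver v.asIdeal := Ideal.LiesOver.trans W.asIdeal w.asIdeal v.asIdeal
  have h2 : v.asIdeal.ramificationIdx' W.asIdeal ∣ Module.finrank F₀ M := by
    rw [Ideal.ramificationIdx'_eq_ramificationIdx v.asIdeal W.asIdeal v.ne_bot,
      ← Ideal.ramificationIdxIn_eq_ramificationIdx v.asIdeal W.asIdeal Gal(M/F₀),
      ← IsGalois.card_aut_eq_finrank,
      ← Ideal.ncard_primesOver_mul_ramificationIdxIn_mul_inertiaDegIn v.asIdeal (𝓞 M) Gal(M/F₀)]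
    exact Dvd.dvd.mul_left (Dvd.intro _ rfl) _
  exact (Dvd.intro _ h1.symm).trans h2

/-- the ramification indices above `ℓ` divide the degree -/
theorem ram_dvd {F₀ N L M : Type*} [Field F₀] [NumberField F₀] [Field N] [NumberField N] [Field L]
    [NumberField L] [Field M] [NumberField M] [Algebra F₀ L] [Algebra N L] [Algebra L M]
    [Algebra F₀ M] [IsScalarTower F₀ L M] [IsGalois F₀ M] {ℓ : ℕ} (hℓ : ℓ.Prime)
    (hun : ∀ v : HeightOneSpectrum (𝓞 F₀), (ℓ : 𝓞 F₀) ∉ v.asIdeal ^ 2)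
    (w : HeightOneSpectrum (𝓞 L)) (hw : (ℓ : 𝓞 L) ∈ w.asIdeal) (v : HeightOneSpectrum (𝓞 N))
    [hwv : w.asIdeal.LiesOver v.asIdeal] :
    v.asIdeal.ramificationIdx' w.asIdeal ∣ Module.finrank F₀ M := by
  obtain ⟨v₀, hv₀⟩ : ∃ v₀ : HeightOneSpectrum (𝓞 F₀), v₀ = w.under (𝓞 F₀) := ⟨_, rfl⟩
  have i0 : w.asIdeal.LiesOver v₀.asIdeal := by
    rw [hv₀]
    exact ⟨rfl⟩
  have hℓ₀ : (ℓ : 𝓞 F₀) ∈ v₀.asIdeal := by
    rw [i0.over]
    show algebraMap (𝓞 F₀) (𝓞 L) (ℓ : 𝓞 F₀) ∈ w.asIdeal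
    rw [map_natCast]
    exact hw
  have e0 := HeightOneSpectrum.intValuation_liesOver v₀ w (ℓ : 𝓞 F₀)
  have e1 := HeightOneSpectrum.intValuation_liesOver v w (ℓ : 𝓞 N)
  have c0 : algebraMap (𝓞 F₀) (𝓞 L) (ℓ : 𝓞 F₀) = (ℓ : 𝓞 L) := map_natCast _ ℓ
  have c1 : algebraMap (𝓞 N) (𝓞 L) (ℓ : 𝓞 N) = (ℓ : 𝓞 L) := map_natCast _ ℓ
  rw [c0] at e0
  rw [c1] at e1
  rw [← e1] at e0
  refine Dvd.dvd.trans ?_ (ramIdx_dvd (M := M) v₀ w)
  obtain ⟨e, he⟩ : ∃ e : ℕ, e = v.asIdeal.ramificationIdx' w.asIdeal := ⟨_, rfl⟩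
  obtain ⟨e', he'⟩ : ∃ e' : ℕ, e' = v₀.asIdeal.ramificationIdx' w.asIdeal := ⟨_, rfl⟩
  rw [← he, ← he'] at e0
  rw [← he, ← he']
  have hℓF : (ℓ : 𝓞 F₀) ≠ 0 := Nat.cast_ne_zero.2 hℓ.ne_zero
  have hℓN : (ℓ : 𝓞 N) ≠ 0 := Nat.cast_ne_zero.2 hℓ.ne_zero
  have n0 : v₀.intValuation (ℓ : 𝓞 F₀) ≠ 0 := HeightOneSpectrum.intValuation_ne_zero v₀ _ hℓF
  have n1 : v.intValuation (ℓ : 𝓞 N) ≠ 0 := HeightOneSpectrum.intValuation_ne_zero v _ hℓN
  have f0 : log (v₀.intValuation (ℓ : 𝓞 F₀)) = -1 := by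
    have h1 : ¬ v₀.intValuation (ℓ : 𝓞 F₀) ≤ exp (-((2 : ℕ) : ℤ)) := by
      rw [v₀.intValuation_le_pow_iff_mem]
      exact hun v₀
    have h2 : v₀.intValuation (ℓ : 𝓞 F₀) ≤ exp (-((1 : ℕ) : ℤ)) := by
      rw [v₀.intValuation_le_pow_iff_mem, pow_one]
      exact hℓ₀
    rw [← exp_log n0, exp_le_exp] at h1 h2
    push_cast at h1 h2
    omega
  have h3 := congrArg log e0
  rw [log_pow, log_pow, f0] at h3
  have h4 : (e : ℤ) * (-log (v.intValuation (ℓ : 𝓞 N))) = (e' : ℤ) := by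
    simp only [nsmul_eq_mul] at h3
    linarith
  exact Int.natCast_dvd_natCast.1 ⟨_, h4.symm⟩

/-- **Good reduction above `ℓ`.** -/
theorem good_tower_w {F₀ N L M : Type*} [Field F₀] [NumberField F₀] [Field N] [NumberField N]
    [Field L] [NumberField L] [Field M] [NumberField M] [Algebra F₀ L] [Algebra N L] [Algebra L M]
    [Algebra F₀ M] [IsScalarTower F₀ L M] [IsGalois F₀ M] {ℓ n : ℕ} (hℓ : ℓ.Prime) (h5 : 5 ≤ ℓ)
    (hM : Module.finrank F₀ M = ℓ ^ n)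
    (hun : ∀ v : HeightOneSpectrum (𝓞 F₀), (ℓ : 𝓞 F₀) ∉ v.asIdeal ^ 2)
    {A B : N} {j : ℤ} (hj : 6912 * A ^ 3 = j * (4 * A ^ 3 + 27 * B ^ 2)) {a b : ℤ}
    (hg : ¬ (ℓ : ℤ) ∣ 6 * (4 * a ^ 3 + 27 * b ^ 2)) (C : VariableChange L)
    (hC : C • (cv A B).baseChange L = cv (a : L) (b : L)) (v : HeightOneSpectrum (𝓞 N))
    (hv : (ℓ : 𝓞 N) ∈ v.asIdeal) :
    ∃ C₀ : VariableChange (v.adicCompletion N),
      GoodW (Valued.v : Valuation (v.adicCompletion N) ℤᵐ⁰)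
        (C₀ • (sw A B).baseChange (v.adicCompletion N)) := by
  obtain ⟨w, hP⟩ := exists_above_w (L := L) v
  have hℓw : (ℓ : 𝓞 L) ∈ w.asIdeal := by
    have h1 := hv
    rw [hP.over] at h1
    have h2 : algebraMap (𝓞 N) (𝓞 L) (ℓ : 𝓞 N) ∈ w.asIdeal := h1
    rwa [map_natCast] at h2
  have he : (v.asIdeal.ramificationIdx' w.asIdeal).Coprime 12 := by
    have h1 := ram_dvd (M := M) hℓ hun w hℓw v
    rw [hM] at h1
    refine Nat.Coprime.coprime_dvd_left h1 (Nat.Coprime.pow_left n ?_)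
    rw [Nat.Prime.coprime_iff_not_dvd hℓ]
    intro h2
    have h3 : ℓ ∣ 2 ^ 2 * 3 := h2
    rcases (Nat.Prime.dvd_mul hℓ).1 h3 with h4 | h4
    · have := Nat.le_of_dvd (by norm_num) (hℓ.dvd_of_dvd_pow h4)
      omega
    · have := Nat.le_of_dvd (by norm_num) h4
      omega
  have h6 : (6 : 𝓞 N) ∉ v.asIdeal := by
    have h1 : ¬ (ℓ : ℤ) ∣ 6 := fun h => hg (h.mul_right _)
    have h2 := int_not_mem hℓ v hv h1
    exact_mod_cast h2
  refine good_desc_w hj v w he h6 C hC ?_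
  have h1 : ¬ (ℓ : ℤ) ∣ 4 * a ^ 3 + 27 * b ^ 2 := fun h => hg (h.mul_left _)
  have h2 := int_not_mem hℓ w hℓw h1
  have e : 4 * (a : L) ^ 3 + 27 * (b : L) ^ 2 =
      algebraMap (𝓞 L) L ((4 * a ^ 3 + 27 * b ^ 2 : ℤ) : 𝓞 L) := by
    rw [map_intCast]
    push_cast
    rfl
  rw [e]
  refine le_antisymm (w.valuation_le_one _) (not_lt.1 fun h => h2 ?_)
  exact (w.valuation_lt_one_iff_mem (K := L) _).1 h

end Pool.Agent.Lib.MP_1a91b9_nuI
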