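import Pool.Agent.Lib.MP_1a91b9_nuI.Ta.Desc

/-!
# Good reduction above `ℓ` in towers
-/

set_option autoImplicit false

namespace Pool.Agent.Lib.MP_1a91b9_nuI

open NumberField IsDedekindDomain WeierstrassCurve WithZero Pool.Agent.Lib.MP_1a91b9_nuX.GM
open Pool.Agent.Lib.MP_1a91b9_nuX Pool.Agent.Lib.MP_1a91b9_nuX.TM

/-- an integer prime to `ℓ` is prime to the places above `ℓ` -/
theorem int_not_mem {N : Type*} [Field N] [NumberField N] {ℓ : ℕ} (hℓ : ℓ.Prime)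
    (v : HeightOneSpectrum (𝓞 N)) (hv : (ℓ : 𝓞 N) ∈ v.asIdeal) {m : ℤ} (hm : ¬ (ℓ : ℤ) ∣ m) :
    (m : 𝓞 N) ∉ v.asIdeal := by
  intro h
  obtain ⟨x, y, hxy⟩ := (Prime.coprime_iff_not_dvd (Nat.prime_iff_prime_int.1 hℓ)).2 hm
  apply v.isPrime.ne_top
  rw [Ideal.eq_top_iff_one]
  have h1 : (x : 𝓞 N) * (ℓ : 𝓞 N) + (y : 𝓞 N) * (m : 𝓞 N) = 1 := by
    exact_mod_cast congrArg (Int.cast : ℤ → 𝓞 N) hxy
  rw [← h1]
  exact Ideal.add_mem _ (Ideal.mul_mem_left _ _ hv) (Ideal.mul_mem_left _ _ h)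

/-- the ramification indices above `ℓ` -/
theorem ram_one {F₀ N L : Type*} [Field F₀] [NumberField F₀] [Field N] [NumberField N] [Field L]
    [NumberField L] [Algebra F₀ L] [Algebra N L] {ℓ : ℕ}
    (hun : ∀ v : HeightOneSpectrum (𝓞 F₀), (ℓ : 𝓞 F₀) ∉ v.asIdeal ^ 2)
    (hR : ∀ (v : HeightOneSpectrum (𝓞 F₀)) (w : HeightOneSpectrum (𝓞 L)),
      v.asIdeal.map (algebraMap (𝓞 F₀) (𝓞 L)) ≤ w.asIdeal ^ 2 → (ℓ : 𝓞 F₀) ∉ v.asIdeal)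
    (w : HeightOneSpectrum (𝓞 L)) (hw : (ℓ : 𝓞 L) ∈ w.asIdeal) (v : HeightOneSpectrum (𝓞 N))
    [hwv : w.asIdeal.LiesOver v.asIdeal] : v.asIdeal.ramificationIdx' w.asIdeal = 1 := by
  obtain ⟨v₀, hv₀⟩ : ∃ v₀ : HeightOneSpectrum (𝓞 F₀), v₀ = w.under (𝓞 F₀) := ⟨_, rfl⟩
  have i0 : w.asIdeal.LiesOver v₀.asIdeal := by
    rw [hv₀]
    exact ⟨rfl⟩
  have hℓ₀ : (ℓ : 𝓞 F₀) ∈ v₀.asIdeal := by
    rw [i0.over]
    show algebraMap (𝓞 F₀) (𝓞 L) (ℓ : 𝓞 F₀) ∈ w.asIdeal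
    rw [map_natCast]
    exact hw
  have hℓv : (ℓ : 𝓞 N) ∈ v.asIdeal := by
    rw [hwv.over]
    show algebraMap (𝓞 N) (𝓞 L) (ℓ : 𝓞 N) ∈ w.asIdeal
    rw [map_natCast]
    exact hw
  have h0 : v₀.asIdeal.ramificationIdx' w.asIdeal = 1 := by
    have h1 := Ideal.IsDedekindDomain.ramificationIdx'_ne_zero_of_liesOver w.asIdeal v₀.ne_bot
    have h2 : v₀.asIdeal.ramificationIdx' w.asIdeal < 2 :=
      Ideal.ramificationIdx'_lt fun h => hR v₀ w h hℓ₀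
    omega
  have h1 := Ideal.IsDedekindDomain.ramificationIdx'_ne_zero_of_liesOver w.asIdeal v.ne_bot
  have e0 := HeightOneSpectrum.intValuation_liesOver v₀ w (ℓ : 𝓞 F₀)
  have e1 := HeightOneSpectrum.intValuation_liesOver v w (ℓ : 𝓞 N)
  have c0 : algebraMap (𝓞 F₀) (𝓞 L) (ℓ : 𝓞 F₀) = (ℓ : 𝓞 L) := map_natCast _ ℓ
  have c1 : algebraMap (𝓞 N) (𝓞 L) (ℓ : 𝓞 N) = (ℓ : 𝓞 L) := map_natCast _ ℓ
  rw [c0, h0, pow_one] at e0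
  rw [c1] at e1
  rw [← e1] at e0
  -- the valuations
  have f0 : ¬ v₀.intValuation (ℓ : 𝓞 F₀) ≤ exp (-((2 : ℕ) : ℤ)) := by
    rw [v₀.intValuation_le_pow_iff_mem]
    exact hun v₀
  have f1 : v.intValuation (ℓ : 𝓞 N) ≤ exp (-((1 : ℕ) : ℤ)) := by
    rw [v.intValuation_le_pow_iff_mem, pow_one]
    exact hℓv
  by_contra hne
  have h2 : 2 ≤ v.asIdeal.ramificationIdx' w.asIdeal := by omega
  apply f0
  rw [e0]
  have f2 : v.intValuation (ℓ : 𝓞 N) ≤ 1 := v.intValuation_le_one _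
  calc v.intValuation (ℓ : 𝓞 N) ^ v.asIdeal.ramificationIdx' w.asIdeal ≤
      v.intValuation (ℓ : 𝓞 N) ^ 2 := pow_le_pow_right_of_le_one' f2 h2
    _ ≤ exp (-((1 : ℕ) : ℤ)) ^ 2 := pow_le_pow_left' f1 2
    _ = exp (-((2 : ℕ) : ℤ)) := by
      rw [← exp_nsmul]
      rfl

/-- **Good reduction above `ℓ`.** -/
theorem good_tower {F₀ N L : Type*} [Field F₀] [NumberField F₀] [Field N] [NumberField N]
    [Field L] [NumberField L] [Algebra F₀ L] [Algebra N L] {ℓ : ℕ} (hℓ : ℓ.Prime)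
    (hun : ∀ v : HeightOneSpectrum (𝓞 F₀), (ℓ : 𝓞 F₀) ∉ v.asIdeal ^ 2)
    (hR : ∀ (v : HeightOneSpectrum (𝓞 F₀)) (w : HeightOneSpectrum (𝓞 L)),
      v.asIdeal.map (algebraMap (𝓞 F₀) (𝓞 L)) ≤ w.asIdeal ^ 2 → (ℓ : 𝓞 F₀) ∉ v.asIdeal)
    {A B : N} {j : ℤ} (hj : 6912 * A ^ 3 = j * (4 * A ^ 3 + 27 * B ^ 2)) {a b : ℤ}
    (hg : ¬ (ℓ : ℤ) ∣ 6 * (4 * a ^ 3 + 27 * b ^ 2)) (C : VariableChange L)
    (hC : C • (cv A B).baseChange L = cv (a : L) (b : L)) (v : HeightOneSpectrum (𝓞 N))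
    (hv : (ℓ : 𝓞 N) ∈ v.asIdeal) :
    ∃ C₀ : VariableChange (v.adicCompletion N),
      GoodW (Valued.v : Valuation (v.adicCompletion N) ℤᵐ⁰)
        (C₀ • (sw A B).baseChange (v.adicCompletion N)) := by
  obtain ⟨P, hPm, hP⟩ := Ideal.exists_maximal_ideal_liesOver_of_isIntegral (S := 𝓞 L) v.asIdeal
  obtain ⟨w, hw⟩ : ∃ w : HeightOneSpectrum (𝓞 L), w.asIdeal = P := by
    refine ⟨⟨P, hPm.isPrime, ?_⟩, rfl⟩
    intro hb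
    apply v.ne_bot
    rw [hP.over, hb]
    exact Ideal.comap_bot_of_injective _ (FaithfulSMul.algebraMap_injective (𝓞 N) (𝓞 L))
  rw [← hw] at hP
  have hℓw : (ℓ : 𝓞 L) ∈ w.asIdeal := by
    have h1 := hv
    rw [hP.over] at h1
    have h2 : algebraMap (𝓞 N) (𝓞 L) (ℓ : 𝓞 N) ∈ w.asIdeal := h1
    rwa [map_natCast] at h2
  have he := ram_one hun hR w hℓw v
  have h6 : (6 : 𝓞 N) ∉ v.asIdeal := by
    have h1 : ¬ (ℓ : ℤ) ∣ 6 := fun h => hg (h.mul_right _)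
    have h2 := int_not_mem hℓ v hv h1
    exact_mod_cast h2
  refine good_desc hj v w he h6 C hC ?_
  have h1 : ¬ (ℓ : ℤ) ∣ 4 * a ^ 3 + 27 * b ^ 2 := fun h => hg (h.mul_left _)
  have h2 := int_not_mem hℓ w hℓw h1
  have e : 4 * (a : L) ^ 3 + 27 * (b : L) ^ 2 =
      algebraMap (𝓞 L) L ((4 * a ^ 3 + 27 * b ^ 2 : ℤ) : 𝓞 L) := by
    rw [map_intCast]
    push_cast
    rfl
  rw [e]
  refine le_antisymm (w.valuation_le_one _) (not_lt.1 fun h => h2 ?_)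
  exact (w.valuation_lt_one_iff_mem (K := L) _).1 h

end Pool.Agent.Lib.MP_1a91b9_nuI
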