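import Pool.Agent.Lib.MP_1a91b9_nuI.Ta.Gen
import Pool.Agent.Lib.MP_1a91b9_nuI.Fa.Fam

/-!
# Descent of good reduction

A curve over `N` with an integral `j`-invariant which over an extension `L` acquires good reduction at a
place `w`, unramified over the place `v` of `N` prime to 6, has good reduction at `v`.
-/

set_option autoImplicit false

namespace Pool.Agent.Lib.MP_1a91b9_nuI

open NumberField IsDedekindDomain WeierstrassCurve WithZero Pool.Agent.Lib.MP_1a91b9_nuX.GM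
open Pool.Agent.Lib.MP_1a91b9_nuX Pool.Agent.Lib.MP_1a91b9_nuX.TM

section
variable {F Γ : Type*} [Field F] [LinearOrderedCommGroupWithZero Γ] {v : Valuation F Γ}

theorem val_int_le (m : ℤ) : v (m : F) ≤ 1 := by
  rcases Int.eq_nat_or_neg m with ⟨n, rfl | rfl⟩
  · rw [Int.cast_natCast]; exact v_nat_le n
  · rw [Int.cast_neg, Int.cast_natCast, Valuation.map_neg]; exact v_nat_le n

/-- a short model whose discriminant has the valuation of a twelfth power -/
theorem good_scale (h6 : v (6 : F) = 1) {A B : F} {j : ℤ}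
    (hj : 6912 * A ^ 3 = j * (4 * A ^ 3 + 27 * B ^ 2)) {t : F} (ht : t ≠ 0)
    (hv : v (4 * A ^ 3 + 27 * B ^ 2) = v t ^ 12) :
    ∃ C₀ : VariableChange F, GoodW v (C₀ • sw A B) := by
  have h2 : v (2 : F) = 1 := by
    refine le_antisymm (by exact_mod_cast v_nat_le (v := v) 2) (not_lt.1 fun h => ?_)
    have h1 : v (6 : F) < 1 := by
      have e : (6 : F) = 2 * (3 : ℕ) := by norm_num
      rw [e, map_mul]
      exact (mul_le_of_le_one_right' (v_nat_le 3)).trans_lt h
    exact h1.ne h6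
  have h3 : v (3 : F) = 1 := by
    refine le_antisymm (by exact_mod_cast v_nat_le (v := v) 3) (not_lt.1 fun h => ?_)
    have h1 : v (6 : F) < 1 := by
      have e : (6 : F) = 3 * (2 : ℕ) := by norm_num
      rw [e, map_mul]
      exact (mul_le_of_le_one_right' (v_nat_le 2)).trans_lt h
    exact h1.ne h6
  have vt : v t ≠ 0 := (Valuation.ne_zero_iff v).2 ht
  have hA : v A ^ 3 ≤ v t ^ 12 := by
    have e : v (6912 * A ^ 3) = v A ^ 3 := by
      have e1 : (6912 : F) = 2 ^ 8 * 3 ^ 3 := by norm_num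
      rw [e1, map_mul, map_mul, map_pow, map_pow, map_pow, h2, h3, one_pow, one_pow, one_mul,
        one_mul]
    rw [← e, hj, map_mul, hv]
    exact mul_le_of_le_one_left' (val_int_le j)
  have hB : v B ^ 2 ≤ v t ^ 12 := by
    have e : v (27 * B ^ 2) = v B ^ 2 := by
      have e1 : (27 : F) = 3 ^ 3 := by norm_num
      rw [e1, map_mul, map_pow, map_pow, h3, one_pow, one_mul]
    rw [← e]
    have e2 : 27 * B ^ 2 = (4 * A ^ 3 + 27 * B ^ 2) - 4 * A ^ 3 := by ring
    rw [e2]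
    refine v.map_sub_le hv.le ?_
    rw [map_mul, map_pow]
    exact (mul_le_of_le_one_left' (by exact_mod_cast v_nat_le (v := v) 4)).trans hA
  refine ⟨⟨Units.mk0 t ht, 0, 0, 0⟩, ?_⟩
  have hs : (⟨Units.mk0 t ht, 0, 0, 0⟩ : VariableChange F) • sw A B =
      sw (t⁻¹ ^ 4 * A) (t⁻¹ ^ 6 * B) := by
    have h1 := cv_scale A B (Units.mk0 t ht)
    rw [Units.val_inv_eq_inv_val, Units.val_mk0] at h1
    exact h1
  have le1 : ∀ (x : F) (n : ℕ), n ≠ 0 → v x ^ n ≤ 1 → v x ≤ 1 := by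
    intro x n hn h
    by_contra hc
    exact absurd h (not_le.2 (one_lt_pow₀ (not_le.1 hc) hn))
  rw [hs]
  refine ⟨⟨?_, ?_, ?_, ?_, ?_⟩, ?_⟩
  · show v 0 ≤ 1
    rw [map_zero]; exact zero_le_one
  · show v 0 ≤ 1
    rw [map_zero]; exact zero_le_one
  · show v 0 ≤ 1
    rw [map_zero]; exact zero_le_one
  · show v (t⁻¹ ^ 4 * A) ≤ 1
    refine le1 _ 3 three_ne_zero ?_
    have e : (v (t⁻¹ ^ 4 * A)) ^ 3 = (v t ^ 12)⁻¹ * v A ^ 3 := by
      rw [map_mul, map_pow, map_inv₀]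
      rw [mul_pow, ← pow_mul, inv_pow]
    rw [e]
    calc (v t ^ 12)⁻¹ * v A ^ 3 ≤ (v t ^ 12)⁻¹ * v t ^ 12 := mul_le_mul' le_rfl hA
      _ = 1 := inv_mul_cancel₀ (pow_ne_zero 12 vt)
  · show v (t⁻¹ ^ 6 * B) ≤ 1
    refine le1 _ 2 two_ne_zero ?_
    have e : (v (t⁻¹ ^ 6 * B)) ^ 2 = (v t ^ 12)⁻¹ * v B ^ 2 := by
      rw [map_mul, map_pow, map_inv₀]
      rw [mul_pow, ← pow_mul, inv_pow]
    rw [e]
    calc (v t ^ 12)⁻¹ * v B ^ 2 ≤ (v t ^ 12)⁻¹ * v t ^ 12 := mul_le_mul' le_rfl hB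
      _ = 1 := inv_mul_cancel₀ (pow_ne_zero 12 vt)
  · show v (cv (t⁻¹ ^ 4 * A) (t⁻¹ ^ 6 * B)).Δ = 1
    rw [cv_Δ]
    have e : -16 * (4 * (t⁻¹ ^ 4 * A) ^ 3 + 27 * (t⁻¹ ^ 6 * B) ^ 2) =
        -(2 ^ 4 * (t⁻¹ ^ 12 * (4 * A ^ 3 + 27 * B ^ 2))) := by ring
    rw [e, Valuation.map_neg, map_mul, map_mul, map_pow, map_pow, map_inv₀, h2, one_pow, one_mul,
      hv, inv_pow]
    exact inv_mul_cancel₀ (pow_ne_zero 12 vt)

end

/-- **Descent of good reduction.** -/
theorem good_desc {N L : Type*} [Field N] [NumberField N] [Field L] [NumberField L] [Algebra N L]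
    {A B : N} {j : ℤ} (hj : 6912 * A ^ 3 = j * (4 * A ^ 3 + 27 * B ^ 2))
    (v : HeightOneSpectrum (𝓞 N)) (w : HeightOneSpectrum (𝓞 L)) [w.asIdeal.LiesOver v.asIdeal]
    (he : v.asIdeal.ramificationIdx' w.asIdeal = 1) (h6 : (6 : 𝓞 N) ∉ v.asIdeal) {a b : L}
    (C : VariableChange L) (hC : C • (cv A B).baseChange L = cv a b)
    (hd : w.valuation L (4 * a ^ 3 + 27 * b ^ 2) = 1) :
    ∃ C₀ : VariableChange (v.adicCompletion N),
      GoodW (Valued.v : Valuation (v.adicCompletion N) ℤᵐ⁰)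
        (C₀ • (sw A B).baseChange (v.adicCompletion N)) := by
  have hL : CharZero L := inferInstance
  have hu : (C.u : L) ≠ 0 := C.u.ne_zero
  have h1 : algebraMap N L (4 * A ^ 3 + 27 * B ^ 2) = (C.u : L) ^ 12 * (4 * a ^ 3 + 27 * b ^ 2) := by
    have h2 := congrArg WeierstrassCurve.Δ hC
    have h3 : (cv A B).baseChange L = cv (algebraMap N L A) (algebraMap N L B) := cv_map _ A B
    rw [variableChange_Δ, h3, cv_Δ, cv_Δ] at h2
    have h4 : ((C.u⁻¹ : Lˣ) : L) ^ 12 * (C.u : L) ^ 12 = 1 := by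
      rw [← mul_pow, Units.inv_mul, one_pow]
    rw [map_add, map_mul, map_mul, map_pow, map_pow, map_ofNat, map_ofNat]
    linear_combination (-(1 / 16) * (C.u : L) ^ 12) * h2 -
      (4 * algebraMap N L A ^ 3 + 27 * algebraMap N L B ^ 2) * h4
  obtain ⟨t, ht⟩ := v.valuation_surjective N (w.valuation L (C.u : L))
  have hv : v.valuation N (4 * A ^ 3 + 27 * B ^ 2) = v.valuation N t ^ 12 := by
    have h2 := HeightOneSpectrum.valuation_liesOver L v w (4 * A ^ 3 + 27 * B ^ 2)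
    rw [he, pow_one] at h2
    rw [h2, h1, map_mul, map_pow, hd, mul_one, ht]
  have ht0 : t ≠ 0 := by
    rintro rfl
    rw [map_zero] at ht
    exact (Valuation.ne_zero_iff _).2 hu ht.symm
  have hval : ∀ x : N, Valued.v (algebraMap N (v.adicCompletion N) x) = v.valuation N x :=
    fun x => HeightOneSpectrum.valuedAdicCompletion_eq_valuation' v x
  have e0 : (sw A B).baseChange (v.adicCompletion N) =
      sw (algebraMap N (v.adicCompletion N) A) (algebraMap N (v.adicCompletion N) B) :=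
    cv_map _ A B
  rw [e0]
  refine good_scale (j := j) (t := algebraMap N (v.adicCompletion N) t) ?_ ?_
    ((map_ne_zero _).2 ht0) ?_
  · have e : (6 : v.adicCompletion N) = algebraMap N (v.adicCompletion N) 6 := (map_ofNat _ 6).symm
    have e' : (6 : N) = algebraMap (𝓞 N) N 6 := (map_ofNat _ 6).symm
    rw [e, hval, e']
    refine le_antisymm (v.valuation_le_one _) (not_lt.1 fun h => h6 ?_)
    exact (v.valuation_lt_one_iff_mem (K := N) (6 : 𝓞 N)).1 h
  · have h2 := congrArg (algebraMap N (v.adicCompletion N)) hj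
    rw [map_mul, map_mul, map_add, map_mul, map_mul, map_pow, map_pow, map_ofNat, map_ofNat,
      map_ofNat, map_intCast] at h2
    exact h2
  · have h2 : algebraMap N (v.adicCompletion N) (4 * A ^ 3 + 27 * B ^ 2) =
        4 * algebraMap N (v.adicCompletion N) A ^ 3 +
          27 * algebraMap N (v.adicCompletion N) B ^ 2 := by
      rw [map_add, map_mul, map_mul, map_pow, map_pow, map_ofNat, map_ofNat]
    rw [← h2, hval, hval, hv]

end Pool.Agent.Lib.MP_1a91b9_nuI
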