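import Pool.Agent.Lib.MP_1a91b9_nuI.Ta.Tow

/-!
# Descent of good reduction in an extension with ramification index prime to 12

A curve over `N` with an integral `j`-invariant which over an extension `L` acquires good reduction at a
place `w`, with ramification index prime to 12 over the place `v` of `N` prime to 6, has good reduction
at `v`.
-/

set_option autoImplicit false

namespace Pool.Agent.Lib.MP_1a91b9_nuI

open NumberField IsDedekindDomain WeierstrassCurve WithZero Pool.Agent.Lib.MP_1a91b9_nuX.GM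
open Pool.Agent.Lib.MP_1a91b9_nuX Pool.Agent.Lib.MP_1a91b9_nuX.TM

/-- **Descent of good reduction.** -/
theorem good_desc_w {N L : Type*} [Field N] [NumberField N] [Field L] [NumberField L] [Algebra N L]
    {A B : N} {j : ℤ} (hj : 6912 * A ^ 3 = j * (4 * A ^ 3 + 27 * B ^ 2))
    (v : HeightOneSpectrum (𝓞 N)) (w : HeightOneSpectrum (𝓞 L)) [w.asIdeal.LiesOver v.asIdeal]
    (he : (v.asIdeal.ramificationIdx' w.asIdeal).Coprime 12) (h6 : (6 : 𝓞 N) ∉ v.asIdeal) {a b : L}
    (C : VariableChange L) (hC : C • (cv A B).baseChange L = cv a b)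
    (hd : w.valuation L (4 * a ^ 3 + 27 * b ^ 2) = 1) :
    ∃ C₀ : VariableChange (v.adicCompletion N),
      GoodW (Valued.v : Valuation (v.adicCompletion N) ℤᵐ⁰)
        (C₀ • (sw A B).baseChange (v.adicCompletion N)) := by
  have hL : CharZero L := inferInstance
  have hu : (C.u : L) ≠ 0 := C.u.ne_zero
  have h1 : algebraMap N L (4 * A ^ 3 + 27 * B ^ 2) = (C.u : L) ^ 12 * (4 * a ^ 3 + 27 * b ^ 2) := by
    have h2 := congrArg WeierstrassCurve.Δ hC
    have h3 : (cv A B).baseChange L = cv (algebraMap N L A) (algebraMap N L B) := cv_map _ A B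
    rw [variableChange_Δ, h3, cv_Δ, cv_Δ] at h2
    have h4 : ((C.u⁻¹ : Lˣ) : L) ^ 12 * (C.u : L) ^ 12 = 1 := by
      rw [← mul_pow, Units.inv_mul, one_pow]
    rw [map_add, map_mul, map_mul, map_pow, map_pow, map_ofNat, map_ofNat]
    linear_combination (-(1 / 16) * (C.u : L) ^ 12) * h2 -
      (4 * algebraMap N L A ^ 3 + 27 * algebraMap N L B ^ 2) * h4
  have hx0 : (4 * A ^ 3 + 27 * B ^ 2) ≠ 0 := by
    intro h0
    rw [h0, map_zero] at h1
    have h2 := congrArg (w.valuation L) h1
    rw [map_mul, hd, mul_one, map_pow, map_zero] at h2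
    exact pow_ne_zero 12 ((Valuation.ne_zero_iff _).2 hu) h2.symm
  obtain ⟨e, he'⟩ : ∃ e : ℕ, e = v.asIdeal.ramificationIdx' w.asIdeal := ⟨_, rfl⟩
  rw [← he'] at he
  have h2 := HeightOneSpectrum.valuation_liesOver L v w (4 * A ^ 3 + 27 * B ^ 2)
  rw [← he', h1, map_mul, map_pow, hd, mul_one] at h2
  have hV : v.valuation N (4 * A ^ 3 + 27 * B ^ 2) ≠ 0 := (Valuation.ne_zero_iff _).2 hx0
  have hU : w.valuation L (C.u : L) ≠ 0 := (Valuation.ne_zero_iff _).2 hu
  have h3 : (e : ℤ) * log (v.valuation N (4 * A ^ 3 + 27 * B ^ 2)) =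
      12 * log (w.valuation L (C.u : L)) := by
    have h4 := congrArg log h2
    rw [log_pow, log_pow] at h4
    simpa using h4
  have h12 : (12 : ℤ) ∣ log (v.valuation N (4 * A ^ 3 + 27 * B ^ 2)) := by
    have h4 : IsCoprime (12 : ℤ) (e : ℤ) := by
      have h5 := Nat.isCoprime_iff_coprime.2 he
      exact_mod_cast h5.symm
    exact h4.dvd_of_dvd_mul_left ⟨_, h3⟩
  obtain ⟨k, hk⟩ := h12
  obtain ⟨t, ht⟩ := v.valuation_surjective N (exp k)
  have hv : v.valuation N (4 * A ^ 3 + 27 * B ^ 2) = v.valuation N t ^ 12 := by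
    rw [ht, ← exp_log hV, hk, ← exp_nsmul]
    simp
  have ht0 : t ≠ 0 := by
    rintro rfl
    rw [map_zero] at ht
    exact exp_ne_zero ht.symm
  have hval : ∀ x : N, Valued.v (algebraMap N (v.adicCompletion N) x) = v.valuation N x :=
    fun x => HeightOneSpectrum.valuedAdicCompletion_eq_valuation' v x
  have e0 : (sw A B).baseChange (v.adicCompletion N) =
      sw (algebraMap N (v.adicCompletion N) A) (algebraMap N (v.adicCompletion N) B) :=
    cv_map _ A B
  rw [e0]
  refine good_scale (j := j) (t := algebraMap N (v.adicCompletion N) t) ?_ ?_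
    ((map_ne_zero _).2 ht0) ?_
  · have e : (6 : v.adicCompletion N) = algebraMap N (v.adicCompletion N) 6 := (map_ofNat _ 6).symm
    have e' : (6 : N) = algebraMap (𝓞 N) N 6 := (map_ofNat _ 6).symm
    rw [e, hval, e']
    refine le_antisymm (v.valuation_le_one _) (not_lt.1 fun h => h6 ?_)
    exact (v.valuation_lt_one_iff_mem (K := N) (6 : 𝓞 N)).1 h
  · have h2 := congrArg (algebraMap N (v.adicCompletion N)) hj
    rw [map_mul, map_mul, map_add, map_mul, map_mul, map_pow, map_pow, map_ofNat, map_ofNat,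
      map_ofNat, map_intCast] at h2
    exact h2
  · have h2 : algebraMap N (v.adicCompletion N) (4 * A ^ 3 + 27 * B ^ 2) =
        4 * algebraMap N (v.adicCompletion N) A ^ 3 +
          27 * algebraMap N (v.adicCompletion N) B ^ 2 := by
      rw [map_add, map_mul, map_mul, map_pow, map_pow, map_ofNat, map_ofNat]
    rw [← h2, hval, hval, hv]

end Pool.Agent.Lib.MP_1a91b9_nuI
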